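import Pool.Agent.Work.MP_d2f6cf_al.Main

/-!
# Subgroup lattices of third direct powers do not determine a finite group up to term equivalence

There are finite groups `G`, `H` with isomorphic subgroup lattices of `G × G × G` and
`H × H × H` which are not term equivalent. The isomorphism can even be taken to be induced by one
bijection `f : G → H`, which maps the subgroups of `G ^ m` onto the subgroups of `H ^ m` for every
`m ≤ 3`.
-/

set_option autoImplicit false

namespace Pool.Agent.Results.MP_d2f6cf_al.ThirdPowers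

open Pool.Agent.Work.MP_d2f6cf_al

/-- `F` is an `n`-ary term operation of the group `G`: it is the evaluation of a group word `w` in
`n` variables. -/
def IsTermOperation (G : Type) [Group G] (n : ℕ) (F : (Fin n → G) → G) : Prop :=
  ∃ w : FreeGroup (Fin n), ∀ x : Fin n → G, F x = FreeGroup.lift x w

/-- Term equivalence of two groups: some bijection `f` between them identifies the term operations
of `G` with the term operations of `H`, in every arity. -/
def TermEquivalent (G H : Type) [Group G] [Group H] : Prop :=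
  ∃ f : G ≃ H, ∀ (n : ℕ) (F : (Fin n → G) → G),
    IsTermOperation G n F ↔
      IsTermOperation H n (fun y => f (F (fun i => f.symm (y i))))

theorem subgroup_orderIso' {A B : Type} [Group A] [Group B] (F : A ≃ B)
    (h0 : F 1 = 1) (hinv : ∀ x, F x⁻¹ = (F x)⁻¹)
    (h1 : ∀ S : Subgroup A, ∀ x ∈ S, ∀ y ∈ S, F.symm (F x * F y) ∈ S)
    (h2 : ∀ S : Subgroup B, ∀ x ∈ S, ∀ y ∈ S, F (F.symm x * F.symm y) ∈ S) :
    ∃ φ : Subgroup A ≃o Subgroup B, ∀ S : Subgroup A, (φ S : Set B) = F '' (S : Set A) := by
  have hinv' : ∀ y, F.symm y⁻¹ = (F.symm y)⁻¹ := by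
    intro y
    rw [Equiv.symm_apply_eq, hinv, Equiv.apply_symm_apply]
  refine ⟨{
    toFun := fun S =>
      { carrier := F '' (S : Set A)
        mul_mem' := ?_
        one_mem' := ?_
        inv_mem' := ?_ }
    invFun := fun T =>
      { carrier := F ⁻¹' (T : Set B)
        mul_mem' := ?_
        one_mem' := ?_
        inv_mem' := ?_ }
    left_inv := ?_
    right_inv := ?_
    map_rel_iff' := ?_ }, ?_⟩
  · rintro _ _ ⟨a, ha, rfl⟩ ⟨b, hb, rfl⟩
    exact ⟨_, h1 S a ha b hb, F.apply_symm_apply _⟩
  · exact ⟨1, S.one_mem, h0⟩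
  · rintro _ ⟨a, ha, rfl⟩
    exact ⟨a⁻¹, S.inv_mem ha, hinv a⟩
  · intro a b ha hb
    have := h2 T _ ha _ hb
    simpa using this
  · change F 1 ∈ T
    rw [h0]; exact T.one_mem
  · intro a ha
    change F a⁻¹ ∈ T
    rw [hinv]; exact T.inv_mem ha
  · intro S
    apply SetLike.coe_injective
    exact F.injective.preimage_image _
  · intro T
    apply SetLike.coe_injective
    exact F.surjective.image_preimage _
  · intro S S'
    exact Set.image_subset_image_iff F.injective
  · intro S
    rfl

theorem good_choice_fin (m : ℕ) (hm : m ≤ 3) (a b : Fin m → ZMod 3) :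
    (∀ i, good (a i) (b i) (a i)) ∨ (∀ i, good (a i) (b i) (b i)) ∨
    (∀ i, good (a i) (b i) (a i + b i)) ∨ (∀ i, good (a i) (b i) (a i - b i)) := by
  set a' : ℕ → ZMod 3 := fun j => if h : j < m then a ⟨j, h⟩ else 0 with ha'
  set b' : ℕ → ZMod 3 := fun j => if h : j < m then b ⟨j, h⟩ else 0 with hb'
  have ea : ∀ i : Fin m, a i = a' i := fun i => by simp [ha']
  have eb : ∀ i : Fin m, b i = b' i := fun i => by simp [hb']
  have key : ∀ P : ZMod 3 → ZMod 3 → Prop, P (a' 0) (b' 0) → P (a' 1) (b' 1) → P (a' 2) (b' 2) →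
      ∀ i : Fin m, P (a i) (b i) := by
    intro P h0 h1 h2 i
    rw [ea, eb]
    have hi : (i : ℕ) < 3 := lt_of_lt_of_le i.2 hm
    interval_cases h : (i : ℕ)
    · exact h0
    · exact h1
    · exact h2
  rcases good_choice (a' 0) (a' 1) (a' 2) (b' 0) (b' 1) (b' 2) with h | h | h | h
  · exact Or.inl (key (fun a b => good a b a) h.1 h.2.1 h.2.2)
  · exact Or.inr (Or.inl (key (fun a b => good a b b) h.1 h.2.1 h.2.2))
  · exact Or.inr (Or.inr (Or.inl (key (fun a b => good a b (a + b)) h.1 h.2.1 h.2.2)))
  · exact Or.inr (Or.inr (Or.inr (key (fun a b => good a b (a - b)) h.1 h.2.1 h.2.2)))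

theorem pow_closed (m : ℕ) (hm : m ≤ 3) (k l g : ZMod 9) (r : ℕ)
    (hg : g = ((3 * r : ℕ) : ZMod 9) * k) (hl : l = ((1 + 6 * r : ℕ) : ZMod 9) * k)
    (S : Subgroup (Fin m → GG k)) (x : Fin m → GG k) (hx : x ∈ S) (y : Fin m → GG k)
    (hy : y ∈ S) : (fun i => tw l k (-g) (tw k l g (x i) * tw k l g (y i))) ∈ S := by
  have key : ∀ u ∈ S, (∀ i, good (x i).1.t (y i).1.t (u i).1.t) →
      (fun i => tw l k (-g) (tw k l g (x i) * tw k l g (y i))) ∈ S := by
    intro u hu h
    have e : (fun i => tw l k (-g) (tw k l g (x i) * tw k l g (y i))) = wrd r x y u := by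
      funext i
      rw [← tw_mul k l g r hg hl (x i) (y i) (u i) (h i), tw_tw]
      rfl
    rw [e]
    exact wrd_mem S r hx hy hu
  rcases good_choice_fin m hm (fun i => (x i).1.t) (fun i => (y i).1.t) with h | h | h | h
  · exact key x hx h
  · exact key y hy h
  · exact key (x * y) (S.mul_mem hx hy) h
  · refine key (x * y⁻¹) (S.mul_mem hx (S.inv_mem hy)) fun i => ?_
    have := h i
    rwa [sub_eq_add_neg] at this

/-- **Negative answer.** There are finite groups `G` and `H` such that
* the subgroup lattices of `G × G × G` and `H × H × H` are isomorphic, and for every `m ≤ 3` an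
  isomorphism of the subgroup lattice of `G ^ m` onto that of `H ^ m` is induced by one and the
  same bijection `f : G → H`, applied to the coordinates;
* `G` and `H` are not term equivalent. -/
theorem result : ∃ (G H : Type) (_ : Group G) (_ : Group H) (_ : Finite G) (_ : Finite H),
    Nonempty (Subgroup (G × G × G) ≃o Subgroup (H × H × H)) ∧
    (∃ f : G ≃ H, ∀ m : ℕ, m ≤ 3 → ∃ φ : Subgroup (Fin m → G) ≃o Subgroup (Fin m → H),
      ∀ S : Subgroup (Fin m → G),
        (φ S : Set (Fin m → H)) = (fun x i => f (x i)) '' (S : Set (Fin m → G))) ∧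
    ¬ TermEquivalent G H := by
  refine ⟨GG 1, GG 4, inferInstance, inferInstance, inferInstance, inferInstance, lattice_iso,
    ⟨twE 1 4 6, ?_⟩, ?_⟩
  · intro m hm
    have h14 : (4 : ZMod 9) = 1 + 2 * 6 := by decide
    obtain ⟨φ, hφ⟩ := subgroup_orderIso' (A := Fin m → GG 1) (B := Fin m → GG 4)
      (Equiv.piCongrRight fun _ => twE 1 4 6)
      (by funext i; exact tw_one 1 4 6)
      (by intro x; funext i; exact tw_inv 1 4 6 h14 (x i))
      (by
        intro S x hx y hy
        exact pow_closed m hm 1 4 6 2 (by decide) (by decide) S x hx y hy)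
      (by
        intro S x hx y hy
        have h1 := pow_closed m hm 4 1 (-6) 1 (by decide) (by decide) S x hx y hy
        have h2 : (-(-6) : ZMod 9) = 6 := by decide
        rw [h2] at h1
        exact h1)
    exact ⟨φ, hφ⟩
  · rintro ⟨f, hf⟩
    -- the multiplication of `H`, transported to `G`
    obtain ⟨w, hw⟩ := (hf 2 (fun x => f.symm (f (x 0) * f (x 1)))).2
      ⟨FreeGroup.of 0 * FreeGroup.of 1, fun y => by simp⟩
    -- the multiplication of `G`, transported to `H`
    obtain ⟨w', hw'⟩ := (hf 2 (fun x => x 0 * x 1)).1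
      ⟨FreeGroup.of 0 * FreeGroup.of 1, fun y => by simp⟩
    refine not_termEquiv ⟨f, w, fun x y => ?_⟩ ⟨f.symm, w', fun x y => ?_⟩
      (fun x => f.symm_apply_apply x) (fun x => f.apply_symm_apply x)
    · simpa using hw ![x, y]
    · simpa using hw' ![x, y]

end Pool.Agent.Results.MP_d2f6cf_al.ThirdPowers
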